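import Pool.Agent.Lib.MP_5d4057_al.AG.Defs
import Pool.Agent.Lib.MP_5d4057_al.VB.Top

/-!
# The theorem with the definitions of AG/Defs
-/

set_option autoImplicit false

namespace Pool.Agent.Lib.MP_5d4057_al.AG

open Matrix Pool.Agent.Lib.MP_5d4057_al

theorem arithmetic_iff {m : ℕ} {Γ : Subgroup (SUGroup m)} : Arithmetic m Γ ↔ VB.Arithmetic m Γ := by
  constructor
  · rintro ⟨N, H, φ, hc, hs, h1, h2, h3, h4⟩
    exact ⟨N, ⟨H.polys, H.pts, H.mem_pts⟩, φ, isConnected_iff_connectedSpace.2 hc, hs, h1, h2, h3, h4⟩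
  · rintro ⟨N, H, φ, hc, hs, h1, h2, h3, h4⟩
    exact ⟨N, ⟨H.polys, H.pts, H.mem_pts⟩, φ, isConnected_iff_connectedSpace.1 hc, hs,
      ⟨h1, h2, h3, h4⟩⟩

theorem amalgam_arithmetic (k : ℕ) (hk : 3 ≤ k) (Γ₃ : Subgroup (SUGroup k))
    (Γ : Fin 2 → Subgroup (SUGroup (k + 1))) (h₃ : IsLattice Γ₃) (hA₃ : Arithmetic k Γ₃)
    (hL : ∀ b, IsLattice (Γ b)) (hA : ∀ b, Arithmetic (k + 1) (Γ b))
    (ι : ∀ b, Grp Γ₃ →* Grp (Γ b)) (hι : ∀ b, Function.Injective (ι b))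
    (ρ : Amalgam ι →* SUGroup (k + 2)) (hinj : InjFactors ρ) (hlat : IsLattice ρ.range) :
    Arithmetic (k + 2) ρ.range :=
  arithmetic_iff.2 (VB.amalgam_arithmetic k hk Γ₃ Γ h₃ (arithmetic_iff.1 hA₃) hL
    (fun b => arithmetic_iff.1 (hA b)) ι hι ρ hinj hlat)

end Pool.Agent.Lib.MP_5d4057_al.AG
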