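import Pool.Agent.Lib.MP_5d4057_al.Stmt

/-!
# The definitions of the statement: arithmetic lattices of SU(m,1), amalgams
-/

set_option autoImplicit false

namespace Pool.Agent.Lib.MP_5d4057_al.AG

open Matrix Pool.Agent.Lib.MP_5d4057_al

noncomputable section

/-- A linear algebraic group over `ℚ`: a set of polynomials with rational coefficients in the entries of
`N × N` matrices whose common zeros in `GL_N(ℂ)` are a subgroup `pts`, the group `H(ℂ)`. -/
structure AlgGroup (N : ℕ) where
  polys : Set (MvPolynomial (Fin N × Fin N) ℚ)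
  pts : Subgroup (GL (Fin N) ℂ)
  mem_pts : ∀ g : GL (Fin N) ℂ, g ∈ pts ↔
    ∀ p ∈ polys, MvPolynomial.aeval (fun x : Fin N × Fin N => g.1 x.1 x.2) p = 0

namespace AlgGroup

variable {N : ℕ} (H : AlgGroup N)

/-- The group `H(ℂ)`, with its topology as a subgroup of `GL_N(ℂ)`. -/
def Cpx : Type := ↥H.pts

instance Cpx.instGroup : Group H.Cpx := Subgroup.toGroup H.pts

instance Cpx.instTop : TopologicalSpace H.Cpx := instTopologicalSpaceSubtype

/-- `H` is connected: `H(ℂ)` is connected. -/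
def Conn : Prop := ConnectedSpace H.Cpx

/-- `H` is semisimple: every connected solvable normal subgroup of `H(ℂ)` is trivial. -/
def Semisimple : Prop :=
  ∀ R : Subgroup H.Cpx, R.Normal → Group.IsSolvable R → IsConnected (R : Set H.Cpx) → R = ⊥

/-- The group `H(ℝ)` of real points, as a subgroup of `GL_N(ℝ)`. -/
def realPts : Subgroup (GL (Fin N) ℝ) := H.pts.comap (GeneralLinearGroup.map Complex.ofRealHom)

/-- The group `H(ℝ)`, with its topology as a subgroup of `GL_N(ℝ)`. -/
def Re : Type := ↥H.realPts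

instance Re.instGroup : Group H.Re := Subgroup.toGroup H.realPts

instance Re.instTop : TopologicalSpace H.Re := instTopologicalSpaceSubtype

instance Re.instTopGroup : IsTopologicalGroup H.Re :=
  inferInstanceAs (IsTopologicalGroup ↥H.realPts)

/-- The inclusion of `H(ℝ)` in `GL_N(ℝ)`. -/
def Re.toGL : H.Re →* GL (Fin N) ℝ := H.realPts.subtype

/-- The identity component of `H(ℝ)`. -/
def idComp : Subgroup H.Re := Subgroup.connectedComponentOfOne H.Re

/-- The group `H(ℝ)⁰`. -/
def Re0 : Type := ↥H.idComp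

instance Re0.instGroup : Group H.Re0 := Subgroup.toGroup H.idComp

instance Re0.instTop : TopologicalSpace H.Re0 := instTopologicalSpaceSubtype

/-- The inclusion of `H(ℝ)⁰` in `GL_N(ℝ)`. -/
def Re0.toGL : H.Re0 →* GL (Fin N) ℝ := (Re.toGL H).comp H.idComp.subtype

/-- The subgroup `H(ℤ) ∩ H(ℝ)⁰` of `H(ℝ)⁰`: the elements which are in `GL_N(ℤ)`. -/
def int0 : Subgroup H.Re0 :=
  (GeneralLinearGroup.map (n := Fin N) (Int.castRingHom ℝ)).range.comap (Re0.toGL H)

end AlgGroup

/-- The homomorphism `φ : H(ℝ)⁰ → SU(m,1)` is continuous and surjective with compact kernel, and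
`φ (H(ℤ) ∩ H(ℝ)⁰)` is commensurable with `Γ`. -/
structure Presents {m N : ℕ} (Γ : Subgroup (SUGroup m)) (H : AlgGroup N)
    (φ : H.Re0 →* SUGroup m) : Prop where
  continuous : Continuous φ
  surjective : Function.Surjective φ
  compact_ker : IsCompact (φ.ker : Set H.Re0)
  commensurable : Subgroup.Commensurable Γ (H.int0.map φ)

/-- `Γ` is arithmetic: there are a connected semisimple algebraic group `H` over `ℚ` and a continuous
surjective homomorphism `φ : H(ℝ)⁰ → SU(m,1)` with compact kernel such that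
`φ (H(ℤ) ∩ H(ℝ)⁰)` is commensurable with `Γ`. -/
def Arithmetic (m : ℕ) (Γ : Subgroup (SUGroup m)) : Prop :=
  ∃ (N : ℕ) (H : AlgGroup N) (φ : H.Re0 →* SUGroup m), H.Conn ∧ H.Semisimple ∧ Presents Γ H φ

/-- The subgroup `A` of `SU(m,1)` as a group. -/
def Grp {m : ℕ} (A : Subgroup (SUGroup m)) : Type := ↥A

instance Grp.instGroup {m : ℕ} (A : Subgroup (SUGroup m)) : Group (Grp A) :=
  Subgroup.toGroup A

variable {k : ℕ} {Γ₃ : Subgroup (SUGroup k)} {Γ : Fin 2 → Subgroup (SUGroup (k + 1))}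

/-- The free product of `Γ 0` and `Γ 1` amalgamated along `ι 0`, `ι 1`. -/
def Amalgam (ι : ∀ b, Grp Γ₃ →* Grp (Γ b)) : Type := Monoid.PushoutI ι

instance Amalgam.instGroup (ι : ∀ b, Grp Γ₃ →* Grp (Γ b)) : Group (Amalgam ι) :=
  Monoid.PushoutI.instGroup

/-- The homomorphism from the factor `Γ b` to the amalgam. -/
def Amalgam.of (ι : ∀ b, Grp Γ₃ →* Grp (Γ b)) (b : Fin 2) :
    Grp (Γ b) →* Amalgam ι :=
  Monoid.PushoutI.of (φ := ι) b

/-- `ρ` is injective on both factors of the amalgam. -/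
def InjFactors {ι : ∀ b, Grp Γ₃ →* Grp (Γ b)} (ρ : Amalgam ι →* SUGroup (k + 2)) : Prop :=
  ∀ b, Function.Injective (ρ.comp (Amalgam.of ι b))

end

end Pool.Agent.Lib.MP_5d4057_al.AG
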